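import Mathlib

set_option autoImplicit false

namespace Pool.Agent.Results.MP_f16d24_co.InversePattern

/-- A finitary van der Waerden theorem, from Hales-Jewett, with a bound on the difference. -/
theorem vdw (r K : ℕ) : ∃ w : ℕ, ∀ f : ℕ → Fin r, ∃ (a m : ℕ) (c0 : Fin r), 0 < m ∧ m ≤ w ∧
    a ≤ w * K ∧ ∀ s ≤ K, f (a + m * s) = c0 := by
  obtain ⟨ι, hι, hC⟩ := Combinatorics.Line.exists_mono_in_high_dimension (Fin (K + 1)) (Fin r)
  refine ⟨Fintype.card ι, fun f => ?_⟩
  obtain ⟨l, c0, hl⟩ := hC fun v => f (∑ i, (v i : ℕ))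
  classical
  set m := (Finset.univ.filter fun i => l.idxFun i = none).card with hm
  set a := ∑ i, ((l.idxFun i).getD 0 : Fin (K + 1)).val with ha
  have key : ∀ x : Fin (K + 1), ∑ i, ((l x i : Fin (K + 1)) : ℕ) = a + m * x := by
    intro x
    have h1 : ∀ i, ((l x i : Fin (K + 1)) : ℕ) =
        ((l.idxFun i).getD 0 : Fin (K + 1)).val + (if l.idxFun i = none then (x : ℕ) else 0) := by
      intro i
      rw [Combinatorics.Line.apply_def]
      simp only
      cases h : l.idxFun i <;> simp
    rw [Finset.sum_congr rfl fun i _ => h1 i, Finset.sum_add_distrib, ← Finset.sum_filter,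
      Finset.sum_const, smul_eq_mul]
  refine ⟨a, m, c0, ?_, ?_, ?_, ?_⟩
  · rw [hm, Finset.card_pos]
    obtain ⟨i, hi⟩ := l.proper
    exact ⟨i, by simpa using hi⟩
  · exact Finset.card_le_univ _
  · calc a ≤ ∑ i : ι, K := Finset.sum_le_sum fun i _ => Nat.lt_succ_iff.mp (Fin.is_lt _)
      _ = Fintype.card ι * K := by simp
  · intro s hs
    have := hl ⟨s, Nat.lt_succ_iff.mpr hs⟩
    rw [← this]
    simp only
    rw [key]

/-- Graham's theorem on right triangles of fixed area (with legs in fixed directions), in the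
form needed here, proved by induction on the number of colours. -/
theorem grid (r M : ℕ) (hM : 0 < M) (n : ℕ) : ∃ L I : ℕ, 0 < L ∧
    ∀ (H : ℕ → ℕ → Fin r) (S : Finset (Fin r)), S.card ≤ n → (∀ x ≤ I, ∀ y ≤ I, H x y ∈ S) →
      ∃ x y k l : ℕ, k * l = L ∧ 2 ≤ k ∧ M ∣ k ∧ H (x + k) y = H x y ∧ H x (y + l) = H x y := by
  induction n with
  | zero =>
    refine ⟨1, 0, Nat.one_pos, fun H S hS h => ?_⟩
    have h0 := h 0 le_rfl 0 le_rfl
    rw [Finset.card_eq_zero.mp (Nat.le_zero.mp hS)] at h0
    exact absurd h0 (Finset.notMem_empty _)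
  | succ n ih =>
    obtain ⟨L', I', hL', ih⟩ := ih
    set Lam : ℕ := 2 * M * (I' + 1).factorial with hLam
    have hLam2 : 2 ≤ Lam := by
      have : 0 < M * (I' + 1).factorial := Nat.mul_pos hM (Nat.factorial_pos _)
      rw [hLam, mul_assoc]; omega
    set K : ℕ := Lam * L' + I' * Lam with hK
    obtain ⟨w, hw⟩ := vdw r K
    refine ⟨Lam * L' * w.factorial, w * K + w * K + (I' + 1) * w.factorial,
      Nat.mul_pos (Nat.mul_pos (by omega) hL') (Nat.factorial_pos _), fun H S hS hH => ?_⟩
    obtain ⟨a, m, c0, hm0, hmw, haw, hAP⟩ := hw fun x => H x 0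
    have hmdvd : m ∣ w.factorial := Nat.dvd_factorial hm0 hmw
    set h : ℕ := w.factorial / m with hh
    have hmh : m * h = w.factorial := Nat.mul_div_cancel' hmdvd
    have hhw : h ≤ w.factorial := Nat.div_le_self _ _
    have hc0 : c0 ∈ S := by
      have h1 := hAP 0 (Nat.zero_le _)
      rw [← h1]
      refine hH _ ?_ 0 (Nat.zero_le _)
      simp only [Nat.mul_zero, Nat.add_zero]
      omega
    by_cases hcase : ∃ i ≤ I', ∃ j ≤ I', H (a + i * Lam * m) ((j + 1) * h) = c0
    · obtain ⟨i, hi, j, hj, hij⟩ := hcase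
      have hjd : (j + 1) ∣ (I' + 1).factorial := Nat.dvd_factorial (Nat.succ_pos _) (by omega)
      obtain ⟨t, ht⟩ := hjd
      have ht0 : 0 < t := by
        rcases Nat.eq_zero_or_pos t with h0 | h0
        · rw [h0, Nat.mul_zero] at ht
          exact absurd ht (Nat.factorial_ne_zero _)
        · exact h0
      -- the leg is k = (2 M t L') m
      refine ⟨a + i * Lam * m, 0, 2 * M * t * L' * m, (j + 1) * h, ?_, ?_, ?_, ?_, ?_⟩
      · rw [← hmh, hLam, ht]; ring
      · have : 0 < M * t * L' * m :=
          Nat.mul_pos (Nat.mul_pos (Nat.mul_pos hM ht0) hL') hm0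
        calc 2 ≤ 2 * (M * t * L' * m) := by omega
          _ = 2 * M * t * L' * m := by ring
      · exact ⟨2 * t * L' * m, by ring⟩
      · have h1 : a + i * Lam * m + 2 * M * t * L' * m = a + m * (i * Lam + 2 * M * t * L') := by
          ring
        have h2 : a + i * Lam * m = a + m * (i * Lam) := by ring
        have h3 : 2 * M * t ≤ Lam := by
          rw [hLam, ht]
          calc 2 * M * t = 2 * M * (1 * t) := by ring
            _ ≤ 2 * M * ((j + 1) * t) :=
              Nat.mul_le_mul_left _ (Nat.mul_le_mul_right _ (by omega))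
        have h4 : i * Lam + 2 * M * t * L' ≤ K := by
          rw [hK, add_comm (Lam * L')]
          exact Nat.add_le_add (Nat.mul_le_mul_right _ hi) (Nat.mul_le_mul_right _ h3)
        have h5 : i * Lam ≤ K := le_trans (Nat.le_add_right _ _) h4
        rw [h1, h2]
        exact (hAP _ h4).trans (hAP _ h5).symm
      · have h2 : a + i * Lam * m = a + m * (i * Lam) := by ring
        have h5 : i * Lam ≤ K := by
          rw [hK]
          exact le_trans (Nat.mul_le_mul_right _ hi) (Nat.le_add_left _ _)
        rw [Nat.zero_add, hij, h2]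
        exact (hAP _ h5).symm
    · push Not at hcase
      obtain ⟨x', y', k', l', hkl, hk2, hMk, h1, h2⟩ :=
        ih (fun i j => H (a + i * Lam * m) ((j + 1) * h)) (S.erase c0)
        (by rw [Finset.card_erase_of_mem hc0]; omega)
        (by
          intro i hi j hj
          rw [Finset.mem_erase]
          refine ⟨hcase i hi j hj, hH _ ?_ _ ?_⟩
          · -- a + i Lam m ≤ ...
            have : i * Lam * m ≤ w * K := by
              rw [mul_comm w K]
              refine Nat.mul_le_mul ?_ hmw
              rw [hK]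
              exact le_trans (Nat.mul_le_mul_right _ hi) (Nat.le_add_left _ _)
            omega
          · have : (j + 1) * h ≤ (I' + 1) * w.factorial := Nat.mul_le_mul (by omega) hhw
            omega)
      refine ⟨a + x' * Lam * m, (y' + 1) * h, k' * Lam * m, l' * h, ?_, ?_, ?_, ?_, ?_⟩
      · rw [← hmh, ← hkl]; ring
      · have : 0 < Lam * m := Nat.mul_pos (by omega) hm0
        calc 2 ≤ k' * 1 := by omega
          _ ≤ k' * (Lam * m) := Nat.mul_le_mul_left _ this
          _ = k' * Lam * m := by ring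
      · exact Dvd.dvd.mul_right (Dvd.dvd.mul_right hMk _) _
      · have e : a + x' * Lam * m + k' * Lam * m = a + (x' + k') * Lam * m := by ring
        rw [e]; exact h1
      · have e : (y' + 1) * h + l' * h = (y' + l' + 1) * h := by ring
        rw [e]; exact h2

/-- For every finite colouring `c` of `ℚ`, every rational `q` and every `M ≥ 1` there are a
rational `x` and an integer `d ≥ 2` divisible by `M` such that `x`, `x + d` and `x + q / d` have the
same colour. For `q = 1` this says that the pattern `{x, x + d, x + 1/d}` is partition regular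
over `ℚ`. -/
theorem result (r : ℕ) (c : ℚ → Fin r) (q : ℚ) (M : ℕ) (hM : 0 < M) :
    ∃ (x : ℚ) (d : ℕ), 2 ≤ d ∧ M ∣ d ∧ c (x + d) = c x ∧ c (x + q / d) = c x := by
  obtain ⟨L, I, hL, h⟩ := grid r M hM r
  obtain ⟨x, y, k, l, hkl, hk2, hMk, h1, h2⟩ := h (fun x y => c (x + y * (q / L))) Finset.univ
    (by simp) (fun _ _ _ _ => Finset.mem_univ _)
  refine ⟨x + y * (q / L), k, hk2, hMk, ?_, ?_⟩
  · rw [← h1]
    congr 1
    push_cast
    ring
  · rw [← h2]
    congr 1
    have hk0 : (k : ℚ) ≠ 0 := by
      have : 0 < k := by omega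
      positivity
    have hL0 : (L : ℚ) ≠ 0 := by positivity
    have : (k : ℚ) * l = L := by exact_mod_cast hkl
    push_cast
    field_simp
    rw [← this]
    ring

end Pool.Agent.Results.MP_f16d24_co.InversePattern
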